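import Pool.Agent.Lib.MP_3f5cd8_lc.Lower

/-!
The local frames of a string of local inversions, and the lower bound `3 n`.
-/

namespace Pool.Agent.FS.CrThree

open Pool.Agent.Lib.MP_3f5cd8_lc Matrix

/-- A two by two matrix over the field with two elements, as its four entries. -/
abbrev Fr := ZMod 2 × ZMod 2 × ZMod 2 × ZMod 2

/-- The frame of a vertex after it has been used with the given colours. -/
def fr : List (ZMod 2) → Fr
  | [] => (1, 0, 0, 1)
  | e :: l => ((fr l).1 * (1 + e) + (fr l).2.1 * e, (fr l).1 + (fr l).2.1 * (1 + e),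
      (fr l).2.2.1 * (1 + e) + (fr l).2.2.2 * e, (fr l).2.2.1 + (fr l).2.2.2 * (1 + e))

theorem fr_det (l : List (ZMod 2)) :
    (fr l).1 * (fr l).2.2.2 + (fr l).2.1 * (fr l).2.2.1 = 1 := by
  induction l with
  | nil => decide
  | cons e l ih =>
    simp only [fr]
    revert ih
    generalize (fr l).1 = a
    generalize (fr l).2.1 = b
    generalize (fr l).2.2.1 = c
    generalize (fr l).2.2.2 = d
    revert a b c d e
    decide

theorem fr_three (l : List (ZMod 2)) (h : (fr l).2.1 = 0) (h' : (fr l).2.2.1 = 1) :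
    3 ≤ l.length := by
  match l, h, h' with
  | [], _, h' => exact absurd h' (by decide)
  | [e], h, h' => revert e; decide
  | [e, e'], h, h' => revert e e'; decide
  | _ :: _ :: _ :: _, _, _ => simp

variable {V : Type} [Fintype V] [DecidableEq V]

theorem step (B : SimpleGraph V × (V → ℤˣ)) (a : V) (x : V → ZMod 2) :
    mat (localInv B a) *ᵥ (x + Pi.single a ((mat B *ᵥ x) a + mat B a a * x a)) =
      mat B *ᵥ x + Pi.single a (mat B a a * ((mat B *ᵥ x) a + mat B a a * x a)) := by
  classical
  have h2 : ∀ t : ZMod 2, t + t = 0 := by decide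
  obtain ⟨u, hu⟩ : ∃ u : V → ZMod 2, u = fun x => if B.1.Adj a x then 1 else 0 := ⟨_, rfl⟩
  have hm : mat (localInv B a) = mat B + vecMulVec u u := by
    rw [mat_localInv, hu]
  have hua : u a = 0 := by simp [hu]
  have hc : ∀ y, y ≠ a → mat B y a = u y := by
    intro y hy
    simp [mat, hu, hy, B.1.adj_comm]
  have hr : ∀ y, y ≠ a → mat B a y = u y := by
    intro y hy
    simp [mat, hu, hy.symm]
  have hd : u ⬝ᵥ x = (mat B *ᵥ x) a + mat B a a * x a := by
    simp only [mulVec, dotProduct]
    rw [← Finset.add_sum_erase _ _ (Finset.mem_univ a),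
      ← Finset.add_sum_erase _ (fun i => mat B a i * x i) (Finset.mem_univ a), hua, zero_mul,
      zero_add, add_comm (mat B a a * x a), add_assoc, h2, add_zero]
    exact Finset.sum_congr rfl fun y hy => by rw [hr y (Finset.ne_of_mem_erase hy)]
  rw [← hd, hm]
  funext y
  have e1 : (vecMulVec u u *ᵥ (x + Pi.single a (u ⬝ᵥ x))) y = u y * (u ⬝ᵥ x) := by
    have : (vecMulVec u u *ᵥ (x + Pi.single a (u ⬝ᵥ x))) y =
        u y * (u ⬝ᵥ (x + Pi.single a (u ⬝ᵥ x))) := by
      simp only [mulVec, dotProduct, vecMulVec_apply, Finset.mul_sum, mul_assoc]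
    rw [this, dotProduct_add, dotProduct_single, hua, zero_mul, add_zero]
  have e2 : (mat B *ᵥ Pi.single a (u ⬝ᵥ x)) y = mat B y a * (u ⬝ᵥ x) := by
    show (mat B y) ⬝ᵥ _ = _
    rw [dotProduct_single]
  rw [add_mulVec, Pi.add_apply, e1, mulVec_add, Pi.add_apply, e2, Pi.add_apply]
  by_cases hy : y = a
  · subst hy
    rw [hua, zero_mul, add_zero, Pi.single_eq_same]
  · rw [hc y hy, Pi.single_eq_of_ne hy, add_assoc, h2]

theorem frames (w : List V) (B : SimpleGraph V × (V → ℤˣ)) :
    ∃ l : V → List (ZMod 2), (∀ v, (l v).length = w.count v) ∧ ∀ x : V → ZMod 2,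
      mat (w.foldl localInv B) *ᵥ
          (fun v => (fr (l v)).1 * x v + (fr (l v)).2.1 * (mat B *ᵥ x) v) =
        fun v => (fr (l v)).2.2.1 * x v + (fr (l v)).2.2.2 * (mat B *ᵥ x) v := by
  induction w generalizing B with
  | nil => exact ⟨fun _ => [], fun _ => rfl, fun x => by simp [fr]⟩
  | cons a w ih =>
    obtain ⟨l, h1, h2⟩ := ih (localInv B a)
    refine ⟨fun v => if v = a then mat B a a :: l v else l v, fun v => ?_, fun x => ?_⟩
    · by_cases hv : v = a
      · subst hv; simp [h1]
      · simp [hv, h1, Ne.symm hv]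
    · have h3 := h2 (x + Pi.single a ((mat B *ᵥ x) a + mat B a a * x a))
      rw [step] at h3
      have k : ∀ p q e s t : ZMod 2,
          (p * (1 + e) + q * e) * s + (p + q * (1 + e)) * t =
            p * (s + (t + e * s)) + q * (t + e * (t + e * s)) := by decide
      rw [List.foldl_cons]
      convert h3 using 2
      · funext v
        by_cases hv : v = a
        · subst hv
          simp only [if_true, fr, Pi.add_apply, Pi.single_eq_same, k]
        · simp only [hv, if_false, Pi.add_apply, Pi.single_eq_of_ne hv, add_zero]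
      · rename_i v
        by_cases hv : v = a
        · subst hv
          simp only [if_true, fr, Pi.add_apply, Pi.single_eq_same, k]
        · simp only [hv, if_false, Pi.add_apply, Pi.single_eq_of_ne hv, add_zero]

theorem three_le_count (G : SimpleGraph V)
    (hG : ∀ S : Set V, S.Nonempty → ∃ u v, u ≠ v ∧ ¬ G.Adj u v ∧
      Odd (S ∩ G.neighborSet u ∩ G.neighborSet v).ncard)
    (β β' : V → ℤˣ) (w : List V) (hw : w.foldl localInv (G, β) = (G, β')) (y : V)
    (hy : β' y ≠ β y) : 3 ≤ w.count y := by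
  classical
  obtain ⟨l, h1, h2⟩ := frames w (G, β)
  rw [hw] at h2
  have hA : ∀ (γ : V → ℤˣ) u v, u ≠ v → mat (G, γ) u v = if G.Adj u v then 1 else 0 := by
    intro γ u v h
    simp [mat, h]
  have hx : ∀ v j, (mat (G, β) *ᵥ Pi.single v (1 : ZMod 2)) j = mat (G, β) j v := by
    intro v j
    show (mat (G, β) j) ⬝ᵥ _ = _
    rw [dotProduct_single, mul_one]
  have hb : ∀ j, (fr (l j)).2.1 = 0 := by
    by_contra hne
    push Not at hne
    obtain ⟨u, v, huv, hn, ho⟩ := hG {j | (fr (l j)).2.1 ≠ 0} hne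
    have h3 := congrFun (h2 (Pi.single v 1)) u
    simp only [hx] at h3
    have h4 : ∑ j, (if j ∈ {j | (fr (l j)).2.1 ≠ 0} ∩ G.neighborSet u ∩ G.neighborSet v
        then (1 : ZMod 2) else 0) = 0 := by
      have h5 : (fr (l u)).2.2.1 * (Pi.single v (1 : ZMod 2) : V → ZMod 2) u +
          (fr (l u)).2.2.2 * mat (G, β) u v = 0 := by
        simp [huv, hn, hA β u v huv]
      rw [h5] at h3
      refine Eq.trans ?_ h3
      simp only [mulVec, dotProduct]
      refine Finset.sum_congr rfl fun j _ => ?_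
      have z : ∀ t : ZMod 2, t ≠ 0 → t = 1 := by decide
      by_cases e1 : j = v
      · subst e1
        simp [hn, hA β' u j huv]
      · by_cases e2 : u = j
        · subst e2
          simp [hn, e1, hA β u v e1]
        · rw [hA β' u j e2, hA β j v e1]
          by_cases e3 : (fr (l j)).2.1 = 0
          · simp [e1, e3]
          · by_cases e4 : G.Adj u j <;> by_cases e5 : G.Adj j v <;>
              simp [e1, e4, e5, z _ e3, G.adj_comm v j]
    rw [Finset.sum_boole, ZMod.natCast_eq_zero_iff_even] at h4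
    rw [Set.ncard_eq_toFinset_card', ← Nat.not_even_iff_odd] at ho
    apply ho
    convert h4 using 2
    ext j
    simp [and_assoc]
  have ha : (fr (l y)).1 = 1 ∧ (fr (l y)).2.2.2 = 1 := by
    have := fr_det (l y)
    rw [hb, zero_mul, add_zero] at this
    revert this
    generalize (fr (l y)).1 = a
    generalize (fr (l y)).2.2.2 = d
    revert a d
    decide
  have h3 := congrFun (h2 (Pi.single y 1)) y
  simp only [hx] at h3
  simp only [hb, zero_mul, add_zero, mulVec, dotProduct] at h3
  rw [Finset.sum_eq_single y (fun j _ hj => by simp [hj]) (by simp)] at h3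
  rw [← h1]
  apply fr_three _ (hb y)
  simp only [ha.1, ha.2, Pi.single_eq_same, mul_one, one_mul, mat, if_true] at h3
  have k : ∀ c : ZMod 2, (0 = c + 1 → c = 1) ∧ (1 = c + 0 → c = 1) := by decide
  rcases Int.units_eq_one_or (β y) with e | e <;> rcases Int.units_eq_one_or (β' y) with e' | e'
  · exact absurd (e'.trans e.symm) hy
  · rw [if_neg (fun h => hy (h.trans e.symm)), if_pos e] at h3
    exact (k _).2 h3
  · rw [if_pos e', if_neg (fun h => hy (e'.trans (Eq.symm h)))] at h3
    exact (k _).1 h3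
  · exact absurd (e'.trans e.symm) hy

omit [DecidableEq V] in
theorem three_card_le_cr (G : SimpleGraph V)
    (hG : ∀ S : Set V, S.Nonempty → ∃ u v, u ≠ v ∧ ¬ G.Adj u v ∧
      Odd (S ∩ G.neighborSet u ∩ G.neighborSet v).ncard) :
    ((3 * Fintype.card V : ℕ) : ℕ∞) ≤ cr G := by
  classical
  apply le_sInf
  intro ℓ hℓ
  obtain ⟨w, hw, hw'⟩ := hℓ 1
  refine le_trans ?_ hw
  have h1 : ∑ y, (w : Multiset V).count y = Multiset.card (w : Multiset V) :=
    Multiset.sum_count_eq_card fun a _ => Finset.mem_univ a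
  have h2 : ∑ _y : V, 3 ≤ ∑ y, (w : Multiset V).count y :=
    Finset.sum_le_sum fun y _ => by
      rw [Multiset.coe_count]; exact three_le_count G hG _ _ w hw' y (by simp)
  rw [h1, Multiset.coe_card, Finset.sum_const, smul_eq_mul, Finset.card_univ, mul_comm] at h2
  exact_mod_cast h2

omit [DecidableEq V] in
theorem three_card_le_cr_of_girth (G : SimpleGraph V) (hg : 5 ≤ G.egirth)
    (hd : ∀ v, 2 ≤ (G.neighborSet v).ncard) : ((3 * Fintype.card V : ℕ) : ℕ∞) ≤ cr G := by
  classical
  rw [SimpleGraph.le_egirth] at hg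
  apply three_card_le_cr
  rintro S ⟨y, hy⟩
  obtain ⟨u, hu, v, hv, huv⟩ := (Set.one_lt_ncard (Set.toFinite _)).mp (hd y)
  rw [SimpleGraph.mem_neighborSet] at hu hv
  refine ⟨u, v, huv, fun h => ?_, ?_⟩
  · have := hg y (.cons hu (.cons h (.cons hv.symm .nil))) (by
      rw [SimpleGraph.Walk.cons_isCycle_iff]
      simp [SimpleGraph.Walk.isPath_def, huv, hu.ne, hu.ne', hv.ne, hv.ne'])
    simp only [SimpleGraph.Walk.length_cons, SimpleGraph.Walk.length_nil] at this
    exact absurd this (by decide)
  · have e : S ∩ G.neighborSet u ∩ G.neighborSet v = {y} := by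
      ext j
      simp only [Set.mem_inter_iff, SimpleGraph.mem_neighborSet, Set.mem_singleton_iff]
      constructor
      · rintro ⟨⟨_, h1⟩, h2⟩
        by_contra hj
        have := hg y (.cons hu (.cons h1 (.cons h2.symm (.cons hv.symm .nil)))) (by
          rw [SimpleGraph.Walk.cons_isCycle_iff]
          simp [SimpleGraph.Walk.isPath_def, huv, hu.ne, hu.ne', hv.ne, hv.ne', h1.ne,
            h2.ne', hj, Ne.symm hj])
        simp only [SimpleGraph.Walk.length_cons, SimpleGraph.Walk.length_nil] at this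
        exact absurd this (by decide)
      · rintro rfl
        exact ⟨⟨hy, hu.symm⟩, hv.symm⟩
    rw [e, Set.ncard_singleton]
    exact odd_one

/-- The hypothesis is met by every cycle of length at least five. -/
theorem three_mul_le_cr_cycle (n : ℕ) (hn : 5 ≤ n) :
    ((3 * n : ℕ) : ℕ∞) ≤ cr (SimpleGraph.cycleGraph n) := by
  obtain ⟨n, rfl⟩ : ∃ m, n = m + 5 := ⟨n - 5, by omega⟩
  have v1 : (1 : Fin (n + 5)).val = 1 := rfl
  have v2 : (1 + 1 : Fin (n + 5)).val = 2 := by
    rw [Fin.val_add, v1]; exact Nat.mod_eq_of_lt (by omega)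
  have v3 : (1 + 1 + 1 : Fin (n + 5)).val = 3 := by
    rw [Fin.val_add, v2, v1]; exact Nat.mod_eq_of_lt (by omega)
  have v4 : (1 + 1 + 1 + 1 : Fin (n + 5)).val = 4 := by
    rw [Fin.val_add, v3, v1]; exact Nat.mod_eq_of_lt (by omega)
  have n1 : (1 : Fin (n + 5)) ≠ 0 := fun h => by rw [h] at v1; simp at v1
  have n2 : (1 + 1 : Fin (n + 5)) ≠ 0 := fun h => by rw [h] at v2; simp at v2
  have n3 : (1 + 1 + 1 : Fin (n + 5)) ≠ 0 := fun h => by rw [h] at v3; simp at v3
  have n4 : (1 + 1 + 1 + 1 : Fin (n + 5)) ≠ 0 := fun h => by rw [h] at v4; simp at v4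
  have hN : ∀ v : Fin (n + 5), (SimpleGraph.cycleGraph (n + 5)).neighborSet v = {v - 1, v + 1} :=
    fun v => SimpleGraph.cycleGraph_neighborSet (n := n + 3)
  have h := three_card_le_cr (SimpleGraph.cycleGraph (n + 5)) (by
    rintro S ⟨y, hy⟩
    refine ⟨y - 1, y + 1, fun h => n2 ?_, fun h => ?_, ?_⟩
    · have : (1 + 1 : Fin (n + 5)) = (y + 1) - (y - 1) := by abel
      rw [this, h, sub_self]
    · rw [← SimpleGraph.mem_neighborSet, hN] at h
      rcases h with h | h
      · apply n3
        have : (1 + 1 + 1 : Fin (n + 5)) = (y + 1) - (y - 1 - 1) := by abel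
        rw [this, h, sub_self]
      · apply n1
        have : (1 : Fin (n + 5)) = (y + 1) - (y - 1 + 1) := by abel
        rw [this, h, sub_self]
    · have e : S ∩ (SimpleGraph.cycleGraph (n + 5)).neighborSet (y - 1) ∩
          (SimpleGraph.cycleGraph (n + 5)).neighborSet (y + 1) = {y} := by
        rw [hN, hN, sub_add_cancel, add_sub_cancel_right]
        ext j
        simp only [Set.mem_inter_iff, Set.mem_insert_iff, Set.mem_singleton_iff]
        constructor
        · rintro ⟨⟨_, h1 | h1⟩, h2 | h2⟩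
          · exact h2
          · exfalso
            apply n4
            have : (1 + 1 + 1 + 1 : Fin (n + 5)) = (y + 1 + 1) - (y - 1 - 1) := by abel
            rw [this, ← h1, ← h2, sub_self]
          · exact h1
          · exact h1
        · rintro rfl
          exact ⟨⟨hy, Or.inr rfl⟩, Or.inl rfl⟩
      rw [e, Set.ncard_singleton]
      exact odd_one)
  rwa [Fintype.card_fin] at h

end Pool.Agent.FS.CrThree
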