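import Pool.Agent.FS.CrThree.Main

/-!
The lower bound `3 n` for graphs whose local symmetries all have `b = 0`.
-/

namespace Pool.Agent.FS.CrThree

open Pool.Agent.Lib.MP_3f5cd8_lc Matrix

variable {V : Type} [Fintype V] [DecidableEq V]

theorem three_le_count_rigid (G : SimpleGraph V) [DecidableRel G.Adj]
    (hG : ∀ a b c d : V → ZMod 2, (∀ v, a v * d v + b v * c v = 1) →
      G.adjMatrix (ZMod 2) * (diagonal a + diagonal b * G.adjMatrix (ZMod 2)) =
        diagonal c + diagonal d * G.adjMatrix (ZMod 2) → b = 0)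
    (w : List V) (hw : w.foldl localInv (G, 1) = (G, -1)) (y : V) : 3 ≤ w.count y := by
  obtain ⟨l, h1, h2⟩ := frames w (G, 1)
  rw [hw] at h2
  have hA : mat (G, (1 : V → ℤˣ)) = G.adjMatrix (ZMod 2) := by
    ext u v
    by_cases h : u = v
    · subst h; simp [mat]
    · by_cases h' : G.Adj u v <;> simp [mat, h, h']
  have hB : mat (G, (-1 : V → ℤˣ)) = G.adjMatrix (ZMod 2) + 1 := by
    ext u v
    by_cases h : u = v
    · subst h; simp [mat]
    · by_cases h' : G.Adj u v <;> simp [mat, h, h']
  rw [hA, hB] at h2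
  have k : ∀ p q r s t : ZMod 2, t + (p + q) = r + s → t = r + p + (s + q) := by decide
  have hb : (fun v => (fr (l v)).2.1) = 0 := by
    apply hG (fun v => (fr (l v)).1) _ (fun v => (fr (l v)).2.2.1 + (fr (l v)).1)
      (fun v => (fr (l v)).2.2.2 + (fr (l v)).2.1)
    · intro v
      have := fr_det (l v)
      revert this
      generalize (fr (l v)).1 = a
      generalize (fr (l v)).2.1 = b
      generalize (fr (l v)).2.2.1 = c
      generalize (fr (l v)).2.2.2 = d
      revert a b c d
      decide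
    · apply Matrix.ext_of_mulVec_single
      intro v
      have h3 := h2 (Pi.single v 1)
      generalize (Pi.single v (1 : ZMod 2) : V → ZMod 2) = x at h3 ⊢
      funext u
      have h4 := congrFun h3 u
      rw [add_mulVec, one_mulVec, Pi.add_apply] at h4
      have e : (diagonal (fun v => (fr (l v)).1) +
          diagonal (fun v => (fr (l v)).2.1) * G.adjMatrix (ZMod 2)) *ᵥ x =
          fun v => (fr (l v)).1 * x v + (fr (l v)).2.1 * (G.adjMatrix (ZMod 2) *ᵥ x) v := by
        funext j
        rw [add_mulVec, ← mulVec_mulVec, Pi.add_apply, mulVec_diagonal, mulVec_diagonal]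
      rw [← mulVec_mulVec, e, add_mulVec, ← mulVec_mulVec, Pi.add_apply, mulVec_diagonal,
        mulVec_diagonal, add_mul, add_mul]
      exact k _ _ _ _ _ h4
  have hb' : ∀ j, (fr (l j)).2.1 = 0 := fun j => congrFun hb j
  have ha : (fr (l y)).1 = 1 := by
    have := fr_det (l y)
    rw [hb', zero_mul, add_zero] at this
    revert this
    generalize (fr (l y)).1 = a
    generalize (fr (l y)).2.2.2 = d
    revert a d
    decide
  have h3 := congrFun (h2 (Pi.single y 1)) y
  have hx : (G.adjMatrix (ZMod 2) *ᵥ Pi.single y (1 : ZMod 2)) y = 0 := by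
    show (G.adjMatrix (ZMod 2) y) ⬝ᵥ _ = _
    rw [dotProduct_single]
    simp
  rw [hx] at h3
  simp only [hb', zero_mul, add_zero, mul_zero, mulVec, dotProduct] at h3
  rw [Finset.sum_eq_single y (fun j _ hj => by simp [hj]) (by simp)] at h3
  rw [← h1]
  apply fr_three _ (hb' y)
  simpa [ha] using h3.symm

theorem three_card_le_cr_rigid (G : SimpleGraph V) [DecidableRel G.Adj]
    (hG : ∀ a b c d : V → ZMod 2, (∀ v, a v * d v + b v * c v = 1) →
      G.adjMatrix (ZMod 2) * (diagonal a + diagonal b * G.adjMatrix (ZMod 2)) =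
        diagonal c + diagonal d * G.adjMatrix (ZMod 2) → b = 0) :
    ((3 * Fintype.card V : ℕ) : ℕ∞) ≤ cr G := by
  apply le_sInf
  intro ℓ hℓ
  obtain ⟨w, hw, hw'⟩ := hℓ 1
  refine le_trans ?_ hw
  have h1 : ∑ y, (w : Multiset V).count y = Multiset.card (w : Multiset V) :=
    Multiset.sum_count_eq_card fun a _ => Finset.mem_univ a
  have h2 : ∑ _y : V, 3 ≤ ∑ y, (w : Multiset V).count y :=
    Finset.sum_le_sum fun y _ => by
      rw [Multiset.coe_count]; exact three_le_count_rigid G hG w hw' y
  rw [h1, Multiset.coe_card, Finset.sum_const, smul_eq_mul, Finset.card_univ, mul_comm] at h2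
  exact_mod_cast h2

/-- The odd intersection condition gives the hypothesis. -/
theorem rigid_of_odd (G : SimpleGraph V) [DecidableRel G.Adj]
    (hG : ∀ S : Set V, S.Nonempty → ∃ u v, u ≠ v ∧ ¬ G.Adj u v ∧
      Odd (S ∩ G.neighborSet u ∩ G.neighborSet v).ncard)
    (a b c d : V → ZMod 2)
    (h : G.adjMatrix (ZMod 2) * (diagonal a + diagonal b * G.adjMatrix (ZMod 2)) =
      diagonal c + diagonal d * G.adjMatrix (ZMod 2)) : b = 0 := by
  classical
  by_contra hne
  obtain ⟨u, v, huv, hn, ho⟩ := hG {j | b j ≠ 0} (Function.ne_iff.mp hne)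
  have h3 := congrFun (congrFun h u) v
  have h4 : ∑ j, (if j ∈ {j | b j ≠ 0} ∩ G.neighborSet u ∩ G.neighborSet v
      then (1 : ZMod 2) else 0) = 0 := by
    have h5 : (diagonal c + diagonal d * G.adjMatrix (ZMod 2)) u v = 0 := by
      rw [Matrix.add_apply, diagonal_mul]
      simp [huv, hn]
    rw [h5] at h3
    refine Eq.trans ?_ h3
    rw [Matrix.mul_apply]
    refine Finset.sum_congr rfl fun j _ => ?_
    rw [Matrix.add_apply, diagonal_mul]
    have z : ∀ t : ZMod 2, t ≠ 0 → t = 1 := by decide
    by_cases e1 : j = v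
    · subst e1
      simp [hn]
    · by_cases e3 : b j = 0
      · simp [e1, e3]
      · by_cases e4 : G.Adj u j <;> by_cases e5 : G.Adj j v <;>
          simp [e1, e4, e5, z _ e3, G.adj_comm v j]
  rw [Finset.sum_boole, ZMod.natCast_eq_zero_iff_even] at h4
  rw [Set.ncard_eq_toFinset_card', ← Nat.not_even_iff_odd] at ho
  apply ho
  convert h4 using 2
  ext j
  simp [and_assoc]

end Pool.Agent.FS.CrThree
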